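import Pool.Agent.H81.GT.TargetsT
import Pool.Agent.H87.LS.SPL

/-!
Theorem G (MP_ee74d2_an), module SUB: kernels in the coordinates `(a, ξ')` of the cone.
-/

set_option autoImplicit false

namespace Pool.Agent.H70.G.SUB

open MeasureTheory Set FourierTransform
open scoped ENNReal NNReal RealInnerProductSpace
open Pool.Agent.H83.LS Pool.Agent.H81.GT
open Pool.Agent.H83.G (Z TF Rg Cls pl Lo Bp TP)

theorem spl_eq {n : ℕ} (u : EE n) (c : ℝ) : Pool.Agent.H87.LS.spl n (u, c) = jo u c := by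
  ext i
  refine Fin.lastCases ?_ (fun i => ?_) i
  · rw [Pool.Agent.H87.LS.spl_last]
    simp [jo]
  · rw [Pool.Agent.H87.LS.spl_castSucc]
    simp [jo]

theorem inner_jo {n : ℕ} (u v : EE n) (c d : ℝ) :
    inner ℝ (jo u c) (jo v d) = inner ℝ u v + c * d := by
  rw [← spl_eq, ← spl_eq, Pool.Agent.H87.LS.spl_inner]

theorem norm_jo_sq {n : ℕ} (u : EE n) (c : ℝ) : ‖jo u c‖ ^ 2 = ‖u‖ ^ 2 + c ^ 2 := by
  rw [← real_inner_self_eq_norm_sq, inner_jo, real_inner_self_eq_norm_sq, pow_two c]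

theorem continuous_jo {n : ℕ} : Continuous fun p : EE n × ℝ => jo p.1 p.2 := by
  unfold jo
  refine (PiLp.continuous_toLp 2 _).comp (continuous_pi fun i => ?_)
  refine Fin.lastCases ?_ (fun i => ?_) i
  · simp only [Fin.snoc_last]
    exact continuous_snd
  · simp only [Fin.snoc_castSucc]
    fun_prop

theorem last_jo {n : ℕ} (u : EE n) (c : ℝ) : jo u c (Fin.last n) = c := by
  simp [jo]

/-- the substitution -/
noncomputable def gg (B a : ℝ) : ℝ := (a - B ^ 2 / a) / 2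

theorem gg_deriv {B a : ℝ} (ha : 0 < a) :
    HasDerivAt (gg B) ((1 + B ^ 2 / a ^ 2) / 2) a := by
  have h1 : HasDerivAt (fun a : ℝ => B ^ 2 / a) (-(B ^ 2 / a ^ 2)) a := by
    have := (hasDerivAt_inv ha.ne').const_mul (B ^ 2)
    refine this.congr_deriv ?_ |>.congr_of_eventuallyEq ?_
    · ring
    · exact Filter.Eventually.of_forall fun x => by simp only [div_eq_mul_inv]
  have h2 := ((hasDerivAt_id a).sub h1).div_const 2
  refine h2.congr_deriv ?_
  ring

theorem gg_inj (B : ℝ) : InjOn (gg B) (Ioi 0) := by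
  refine StrictMonoOn.injOn fun a ha a' ha' h => ?_
  have ha0 : 0 < a := ha
  have h1 : B ^ 2 / a' ≤ B ^ 2 / a := div_le_div_of_nonneg_left (sq_nonneg B) ha0 h.le
  unfold gg
  linarith

theorem gg_surj {B c : ℝ} (hc : 0 < c) : c ∈ gg B '' Ioi 0 := by
  have h1 : 0 ≤ c ^ 2 + B ^ 2 := by positivity
  have h2 : 0 ≤ Real.sqrt (c ^ 2 + B ^ 2) := Real.sqrt_nonneg _
  refine ⟨c + Real.sqrt (c ^ 2 + B ^ 2), ?_, ?_⟩
  · show 0 < c + Real.sqrt (c ^ 2 + B ^ 2)
    linarith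
  · have h3 : c + Real.sqrt (c ^ 2 + B ^ 2) ≠ 0 := by linarith
    unfold gg
    field_simp
    have h4 := Real.sq_sqrt h1
    nlinarith

/-- the norm of the point -/
theorem norm_pt {n : ℕ} (u : EE n) {a : ℝ} (ha : 0 < a) :
    ‖jo u (gg ‖u‖ a)‖ = (a + ‖u‖ ^ 2 / a) / 2 := by
  have h1 : 0 ≤ (a + ‖u‖ ^ 2 / a) / 2 := by positivity
  have h2 : ‖jo u (gg ‖u‖ a)‖ ^ 2 = ((a + ‖u‖ ^ 2 / a) / 2) ^ 2 := by
    rw [norm_jo_sq]
    unfold gg
    field_simp
    ring
  exact (pow_left_inj₀ (norm_nonneg _) h1 two_ne_zero).1 h2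

theorem e_add' (x y : ℝ) : Pool.Agent.H83.LS.e (x + y) =
    Pool.Agent.H83.LS.e x * Pool.Agent.H83.LS.e y := by
  unfold Pool.Agent.H83.LS.e
  rw [← Complex.exp_add]
  congr 1
  push_cast
  ring

theorem norm_e' (x : ℝ) : ‖Pool.Agent.H83.LS.e x‖ = 1 := by
  unfold Pool.Agent.H83.LS.e
  exact Complex.norm_exp_ofReal_mul_I _

theorem continuous_e' : Continuous Pool.Agent.H83.LS.e := by
  unfold Pool.Agent.H83.LS.e
  fun_prop

/-- the integrand in the coordinates `(u, c)` -/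
noncomputable def G0 {n : ℕ} (b : EE (n + 1) → ℂ) (z : Z n) (p : EE n × ℝ) : ℂ :=
  e (inner ℝ (xz z) (jo p.1 p.2)) * (e (tz z * ‖jo p.1 p.2‖) * b (jo p.1 p.2))

/-- the integrand in the coordinates `(u, a)` -/
noncomputable def H0 {n : ℕ} (b : EE (n + 1) → ℂ) (z : Z n) (u : EE n × ℝ) : ℂ :=
  e (z.1 * u.2 + ⟪z.2.1, u.1⟫ + z.2.2 * ‖u.1‖ ^ 2 / u.2) *
    (((1 + ‖u.1‖ ^ 2 / u.2 ^ 2) / 2 : ℝ) : ℂ) * b (jo u.1 ((u.2 - ‖u.1‖ ^ 2 / u.2) / 2))

theorem H0_eq {n : ℕ} (b : EE (n + 1) → ℂ) (z : Z n) (u : EE n) {a : ℝ} (ha : 0 < a) :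
    H0 b z (u, a) = |(1 + ‖u‖ ^ 2 / a ^ 2) / 2| • G0 b z (u, gg ‖u‖ a) := by
  have h1 : 0 ≤ (1 + ‖u‖ ^ 2 / a ^ 2) / 2 := by positivity
  have h2 : inner ℝ (xz z) (jo u (gg ‖u‖ a)) + tz z * ‖jo u (gg ‖u‖ a)‖ =
      z.1 * a + ⟪z.2.1, u⟫ + z.2.2 * ‖u‖ ^ 2 / a := by
    rw [norm_pt u ha]
    unfold xz tz gg
    rw [inner_jo]
    field_simp
    ring
  unfold H0 G0
  simp only
  rw [abs_of_nonneg h1, ← h2, e_add', Complex.real_smul]
  have h3 : jo u ((a - ‖u‖ ^ 2 / a) / 2) = jo u (gg ‖u‖ a) := rfl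
  rw [h3]
  ring

theorem G0_cont {n : ℕ} (b : EE (n + 1) → ℂ) (z : Z n) (hb : Continuous b) :
    Continuous (G0 b z) := by
  unfold G0
  have h1 := continuous_jo (n := n)
  exact (continuous_e'.comp (continuous_const.inner h1)).mul
    ((continuous_e'.comp (continuous_const.mul h1.norm)).mul (hb.comp h1))

theorem bound_supp {n : ℕ} (b : EE (n + 1) → ℂ) (hs : HasCompactSupport b) :
    ∃ D : ℝ, 0 < D ∧ ∀ ξ, b ξ ≠ 0 → ‖ξ‖ ≤ D := by
  obtain ⟨D, hD⟩ := (isBounded_iff_forall_norm_le.1 hs.isCompact.isBounded)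
  exact ⟨max D 1, lt_of_lt_of_le one_pos (le_max_right _ _), fun ξ hξ =>
    (hD ξ (subset_tsupport _ hξ)).trans (le_max_left _ _)⟩

theorem G0_cs {n : ℕ} (b : EE (n + 1) → ℂ) (z : Z n) (hs : HasCompactSupport b) :
    HasCompactSupport (G0 b z) := by
  obtain ⟨D, hD0, hD⟩ := bound_supp b hs
  refine HasCompactSupport.of_support_subset_isCompact
    (isCompact_closedBall (0 : EE n × ℝ) D) fun p hp => ?_
  have h1 : b (jo p.1 p.2) ≠ 0 := by
    intro h0
    refine hp ?_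
    unfold G0
    rw [h0, mul_zero, mul_zero]
  have h2 := hD _ h1
  have h3 := norm_jo_sq p.1 p.2
  have h4 : ‖p.1‖ ≤ D := by
    refine le_trans ?_ h2
    refine (pow_le_pow_iff_left₀ (norm_nonneg _) (norm_nonneg _) two_ne_zero).1 ?_
    rw [h3]
    nlinarith [sq_nonneg p.2]
  have h5 : |p.2| ≤ D := by
    refine le_trans ?_ h2
    refine (pow_le_pow_iff_left₀ (abs_nonneg _) (norm_nonneg _) two_ne_zero).1 ?_
    rw [h3, sq_abs]
    nlinarith [sq_nonneg ‖p.1‖]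
  rw [mem_closedBall_zero_iff, Prod.norm_def]
  exact max_le h4 h5

theorem H0_int {n : ℕ} (b : EE (n + 1) → ℂ) (z : Z n) (hb : Continuous b)
    (hs : HasCompactSupport b) (hp : ∀ ξ, b ξ ≠ 0 → 0 < ξ (Fin.last n)) :
    IntegrableOn (H0 b z) (univ ×ˢ Ioi (0 : ℝ)) := by
  obtain ⟨D, hD0, hD⟩ := bound_supp b hs
  obtain ⟨C, hC⟩ := hb.bounded_above_of_compact_support hs
  set S : Set (EE n × ℝ) := univ ×ˢ Ioi (0 : ℝ) with hS
  have hSm : MeasurableSet S := MeasurableSet.univ.prod measurableSet_Ioi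
  set K : Set (EE n × ℝ) := Metric.closedBall 0 (2 * D) with hK
  have hKm : MeasurableSet K := Metric.isClosed_closedBall.measurableSet
  have hcont : ContinuousOn (H0 b z) S := by
    have ha : ∀ p ∈ S, p.2 ≠ 0 := fun p hp => ne_of_gt hp.2
    have h1 : ContinuousOn (fun p : EE n × ℝ => z.1 * p.2 + ⟪z.2.1, p.1⟫ +
        z.2.2 * ‖p.1‖ ^ 2 / p.2) S := by
      refine ContinuousOn.add (by fun_prop) (ContinuousOn.div (by fun_prop) (by fun_prop) ha)
    have h2 : ContinuousOn (fun p : EE n × ℝ => (1 + ‖p.1‖ ^ 2 / p.2 ^ 2) / 2) S := by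
      refine ContinuousOn.div_const (ContinuousOn.add (by fun_prop)
        (ContinuousOn.div (by fun_prop) (by fun_prop) fun p hp => pow_ne_zero _ (ha p hp))) _
    have h3 : ContinuousOn (fun p : EE n × ℝ => jo p.1 ((p.2 - ‖p.1‖ ^ 2 / p.2) / 2)) S := by
      refine continuous_jo.comp_continuousOn (continuousOn_fst.prodMk ?_)
      refine ContinuousOn.div_const (ContinuousOn.sub (by fun_prop)
        (ContinuousOn.div (by fun_prop) (by fun_prop) ha)) _
    exact ((continuous_e'.comp_continuousOn h1).mul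
      (Complex.continuous_ofReal.comp_continuousOn h2)).mul (hb.comp_continuousOn h3)
  have hz : ∀ p ∈ S, p ∉ K → H0 b z p = 0 := by
    intro p hpS hpK
    by_contra h0
    refine hpK ?_
    have ha : 0 < p.2 := hpS.2
    have h1 : b (jo p.1 (gg ‖p.1‖ p.2)) ≠ 0 := by
      intro h
      refine h0 ?_
      have h3 : jo p.1 ((p.2 - ‖p.1‖ ^ 2 / p.2) / 2) = jo p.1 (gg ‖p.1‖ p.2) := rfl
      unfold H0
      rw [h3, h, mul_zero]
    have h2 := hD _ h1
    rw [norm_pt p.1 ha] at h2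
    have h3 := hp _ h1
    rw [last_jo] at h3
    unfold gg at h3
    have h4 : 0 ≤ ‖p.1‖ ^ 2 / p.2 := by positivity
    have h5 : p.2 ≤ 2 * D := by linarith
    have h6 : ‖p.1‖ ^ 2 < p.2 ^ 2 := by
      have : ‖p.1‖ ^ 2 / p.2 < p.2 := by linarith
      rw [div_lt_iff₀ ha] at this
      nlinarith
    have h7 : ‖p.1‖ ≤ p.2 := (pow_le_pow_iff_left₀ (norm_nonneg _) ha.le two_ne_zero).1 h6.le
    rw [hK, mem_closedBall_zero_iff, Prod.norm_def]
    refine max_le (h7.trans h5) ?_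
    rw [Real.norm_eq_abs, abs_of_pos ha]
    exact h5
  have hbd : ∀ p ∈ S, ‖H0 b z p‖ ≤ C := by
    intro p hpS
    have ha : 0 < p.2 := hpS.2
    have hC0 : 0 ≤ C := (norm_nonneg _).trans (hC 0)
    by_cases h0 : b (jo p.1 (gg ‖p.1‖ p.2)) = 0
    · have h3 : jo p.1 ((p.2 - ‖p.1‖ ^ 2 / p.2) / 2) = jo p.1 (gg ‖p.1‖ p.2) := rfl
      unfold H0
      rw [h3, h0, mul_zero, norm_zero]
      exact hC0
    · have h3 := hp _ h0
      rw [last_jo] at h3
      unfold gg at h3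
      have h6 : ‖p.1‖ ^ 2 ≤ p.2 ^ 2 := by
        have : ‖p.1‖ ^ 2 / p.2 < p.2 := by linarith
        rw [div_lt_iff₀ ha] at this
        nlinarith
      have h7 : ‖p.1‖ ^ 2 / p.2 ^ 2 ≤ 1 := div_le_one_of_le₀ h6 (by positivity)
      have h8 : 0 ≤ ‖p.1‖ ^ 2 / p.2 ^ 2 := by positivity
      unfold H0
      rw [norm_mul, norm_mul, norm_e', one_mul, Complex.norm_real, Real.norm_eq_abs,
        abs_of_nonneg (by positivity)]
      calc (1 + ‖p.1‖ ^ 2 / p.2 ^ 2) / 2 * ‖b (jo p.1 ((p.2 - ‖p.1‖ ^ 2 / p.2) / 2))‖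
          ≤ 1 * C := by
            refine mul_le_mul (by linarith) (hC _) (norm_nonneg _) zero_le_one
        _ = C := one_mul C
  have hind : IntegrableOn (K.indicator (H0 b z)) S := by
    unfold IntegrableOn
    rw [integrable_indicator_iff hKm]
    unfold IntegrableOn
    have hfin : IsFiniteMeasure ((volume.restrict S).restrict K) := by
      refine ⟨?_⟩
      rw [Measure.restrict_apply_univ]
      exact lt_of_le_of_lt (Measure.restrict_apply_le _ _)
        (isCompact_closedBall (0 : EE n × ℝ) (2 * D)).measure_lt_top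
    refine Integrable.of_bound ?_ C ?_
    · exact (hcont.aestronglyMeasurable hSm).mono_measure Measure.restrict_le_self
    · refine ae_restrict_of_ae ?_
      rw [ae_restrict_iff' hSm]
      exact Filter.Eventually.of_forall fun p hpS => hbd p hpS
  refine hind.congr_fun (fun p hpS => ?_) hSm
  by_cases hpK : p ∈ K
  · exact indicator_of_mem hpK _
  · rw [indicator_of_notMem hpK, hz p hpS hpK]

/-- SUB -/
theorem pf_SUB : T_SUB := by
  intro n b z hb hs hp
  have h1 : Kt b (tz z) (xz z) = ∫ p : EE n × ℝ, G0 b z p := by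
    unfold Kt MK
    rw [← (Pool.Agent.H87.LS.spl_mp n).integral_comp' (g := fun ξ : EE (n + 1) =>
      e (inner ℝ (xz z) ξ) * (e (tz z * ‖ξ‖) * b ξ))]
    refine integral_congr_ae (Filter.Eventually.of_forall fun p => ?_)
    show _ = G0 b z p
    unfold G0
    rw [← spl_eq]
  have h2 : ∫ p : EE n × ℝ, G0 b z p = ∫ u : EE n, ∫ c : ℝ, G0 b z (u, c) :=
    integral_prod _ ((G0_cont b z hb).integrable_of_hasCompactSupport (G0_cs b z hs))
  have h3 : ∀ u : EE n, ∫ c : ℝ, G0 b z (u, c) = ∫ a in Ioi (0 : ℝ), H0 b z (u, a) := by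
    intro u
    have h4 : ∫ c : ℝ, G0 b z (u, c) = ∫ c in gg ‖u‖ '' Ioi 0, G0 b z (u, c) := by
      symm
      refine setIntegral_eq_integral_of_forall_compl_eq_zero fun c hc => ?_
      have hb0 : b (jo u c) = 0 := by
        by_contra h
        have := hp _ h
        rw [last_jo] at this
        exact hc (gg_surj this)
      unfold G0
      simp only
      rw [hb0, mul_zero, mul_zero]
    rw [h4, integral_image_eq_integral_abs_deriv_smul measurableSet_Ioi
      (fun a ha => (gg_deriv (B := ‖u‖) ha).hasDerivWithinAt) (gg_inj ‖u‖)]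
    refine setIntegral_congr_fun measurableSet_Ioi fun a ha => ?_
    exact (H0_eq b z u ha).symm
  have h5 : ∫ p in (univ : Set (EE n)) ×ˢ Ioi (0 : ℝ), H0 b z p =
      ∫ u in (univ : Set (EE n)), ∫ a in Ioi (0 : ℝ), H0 b z (u, a) :=
    setIntegral_prod _ (H0_int b z hb hs hp)
  have h6 : {u : EE n × ℝ | 0 < u.2} = (univ : Set (EE n)) ×ˢ Ioi (0 : ℝ) := by
    ext p
    simp
  rw [h1, h2, h6]
  refine Eq.trans ?_ h5.symm
  rw [Measure.restrict_univ]
  exact integral_congr_ae (Filter.Eventually.of_forall h3)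

end Pool.Agent.H70.G.SUB
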