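import Pool.Agent.H81.GT.TargetsT
import Pool.Agent.H83.LS.Basic

/-!
Theorem G (MP_ee74d2_an), module TX: profiles exist.
-/

set_option autoImplicit false

namespace Pool.Agent.H70.G.TX

open MeasureTheory Set FourierTransform
open scoped ENNReal NNReal RealInnerProductSpace SchwartzMap
open Pool.Agent.H83.LS Pool.Agent.H81.GT

/-- the bump -/
noncomputable def bp : ContDiffBump (0 : ℝ) := ⟨1 / 4000, 1 / 2000, by norm_num, by norm_num⟩

theorem bp_supp {σ : ℝ} (h : bp σ ≠ 0) : |σ| ≤ 1 / 1000 := by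
  have h1 : σ ∈ Function.support bp := h
  rw [bp.support_eq, mem_ball_zero_iff, Real.norm_eq_abs] at h1
  have h2 : bp.rOut = 1 / 2000 := rfl
  rw [h2] at h1
  linarith

/-- the total mass -/
noncomputable def ms : ℝ := ∫ σ, bp σ

theorem ms_pos : 0 < ms := bp.integral_pos

/-- the profile of frequencies -/
noncomputable def X (σ : ℝ) : ℂ := ((2 / ms * bp σ : ℝ) : ℂ)

theorem X_smooth : ContDiff ℝ (⊤ : ℕ∞) X :=
  Complex.ofRealCLM.contDiff.comp (contDiff_const.mul bp.contDiff)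

theorem X_cs : HasCompactSupport X := by
  have h1 : HasCompactSupport fun σ => 2 / ms * bp σ := bp.hasCompactSupport.mul_left
  exact h1.comp_left (g := fun x : ℝ => (x : ℂ)) Complex.ofReal_zero

/-- the profile as a Schwartz function -/
noncomputable def F : 𝓢(ℝ, ℂ) := X_cs.toSchwartzMap X_smooth

theorem F_apply (σ : ℝ) : F σ = X σ := rfl

theorem chi_eq (s : ℝ) : (𝓕⁻ F) s = ∫ σ : ℝ, e (s * σ) * X σ := by
  rw [SchwartzMap.fourierInv_coe, Real.fourierInv_eq']
  refine integral_congr_ae (Filter.Eventually.of_forall fun σ => ?_)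
  simp only [smul_eq_mul]
  rw [F_apply]
  congr 1

theorem chi_ge {s : ℝ} (hs : s ∈ Icc (1 : ℝ) 2) : 1 ≤ ‖(𝓕⁻ F) s‖ := by
  have hint : Integrable fun σ : ℝ => e (s * σ) * X σ := by
    have h1 : Integrable X := X_smooth.continuous.integrable_of_hasCompactSupport X_cs
    refine h1.bdd_mul (c := 1) ?_ ?_
    · exact (continuous_e.comp (by fun_prop)).aestronglyMeasurable
    · exact Filter.Eventually.of_forall fun σ => (norm_e _).le
  have h2 : ∀ σ : ℝ, 1 / ms * bp σ ≤ (e (s * σ) * X σ).re := by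
    intro σ
    have h3 : (e (s * σ) * X σ).re = Real.cos (2 * Real.pi * (s * σ)) * (2 / ms * bp σ) := by
      unfold X e
      rw [Complex.re_mul_ofReal, Complex.exp_ofReal_mul_I_re]
    rw [h3]
    by_cases h0 : bp σ = 0
    · rw [h0]
      simp
    · have h4 := bp_supp h0
      have h5 : |2 * Real.pi * (s * σ)| ≤ Real.pi / 3 := by
        rw [abs_mul (2 * Real.pi), abs_mul s, abs_of_pos (by positivity : (0 : ℝ) < 2 * Real.pi),
          abs_of_pos (by linarith [hs.1] : (0 : ℝ) < s)]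
        have h6 : s * |σ| ≤ 2 * (1 / 1000) := mul_le_mul hs.2 h4 (abs_nonneg _) (by norm_num)
        nlinarith [Real.pi_pos, h6]
      have h7 : 1 / 2 ≤ Real.cos (2 * Real.pi * (s * σ)) := by
        rw [← Real.cos_abs, ← Real.cos_pi_div_three]
        exact Real.cos_le_cos_of_nonneg_of_le_pi (abs_nonneg _) (by linarith [Real.pi_pos]) h5
      have h8 : 0 ≤ 2 / ms * bp σ := mul_nonneg (div_nonneg zero_le_two ms_pos.le) bp.nonneg
      calc 1 / ms * bp σ = 1 / 2 * (2 / ms * bp σ) := by ring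
        _ ≤ _ := mul_le_mul_of_nonneg_right h7 h8
  have h9 : (1 : ℝ) ≤ (∫ σ : ℝ, e (s * σ) * X σ).re := by
    have h10 : (∫ σ : ℝ, e (s * σ) * X σ).re = ∫ σ : ℝ, (e (s * σ) * X σ).re :=
      (integral_re hint).symm
    rw [h10]
    calc (1 : ℝ) = 1 / ms * ∫ σ, bp σ := by
          have := ms_pos.ne'
          show (1 : ℝ) = 1 / ms * ms
          field_simp
      _ = ∫ σ, 1 / ms * bp σ := (integral_const_mul _ _).symm
      _ ≤ _ := integral_mono (bp.integrable.const_mul _) hint.re h2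
  rw [chi_eq]
  exact h9.trans ((le_abs_self _).trans (Complex.abs_re_le_norm _))

theorem chi_decay (N : ℕ) : ∃ C : ℝ, 0 < C ∧ ∀ s, ‖(𝓕⁻ F) s‖ ≤ C * ((1 + |s|) ^ N)⁻¹ := by
  have h1 := fun s => SchwartzMap.one_add_le_sup_seminorm_apply (𝕜 := ℝ) (m := (N, 0)) (k := N)
    (n := 0) le_rfl le_rfl (𝓕⁻ F) s
  obtain ⟨C, hC⟩ : ∃ C : ℝ, C = 2 ^ N * ((Finset.Iic (N, 0)).sup
    (fun m : ℕ × ℕ => SchwartzMap.seminorm ℝ m.1 m.2)) (𝓕⁻ F) := ⟨_, rfl⟩
  refine ⟨max C 1, lt_of_lt_of_le one_pos (le_max_right _ _), fun s => ?_⟩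
  have h2 := h1 s
  rw [norm_iteratedFDeriv_zero, Real.norm_eq_abs] at h2
  have h3 : 0 < (1 + |s|) ^ N := by positivity
  rw [← div_eq_mul_inv, le_div_iff₀ h3, mul_comm]
  refine h2.trans ?_
  exact (le_of_eq hC.symm).trans (le_max_left _ _)

/-- TX -/
theorem pf_TX : T_TX :=
  ⟨X, fun s => (𝓕⁻ F) s, X_smooth, fun σ h => bp_supp fun h0 => h (by
    unfold X
    rw [h0, mul_zero, Complex.ofReal_zero]), chi_eq, fun _ hs => chi_ge hs,
    (𝓕⁻ F).continuous, chi_decay⟩

end Pool.Agent.H70.G.TX
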